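import Pool.Agent.H74.PP.Targets

/-!
Module SEG (MP_9f0eeb_nt / MP_347b49_nt): the harmonic part of the smooth Jensen formula.
-/

set_option autoImplicit false

open Complex MeasureTheory Set

namespace Pool.Agent.H87.PP

open Pool.Agent.H74.PP

/-- two integrations by parts -/
lemma ibp2 {a b : ℝ} (hab : a ≤ b) {H H1 H2 Φ Φ1 Φ2 : ℝ → ℂ}
    (hH : ∀ x ∈ Icc a b, HasDerivAt H (H1 x) x) (hH1 : ∀ x ∈ Icc a b, HasDerivAt H1 (H2 x) x)
    (hΦ : ∀ x ∈ Icc a b, HasDerivAt Φ (Φ1 x) x) (hΦ1 : ∀ x ∈ Icc a b, HasDerivAt Φ1 (Φ2 x) x)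
    (cH2 : ContinuousOn H2 (Icc a b)) (cΦ2 : ContinuousOn Φ2 (Icc a b))
    (za : Φ a = 0) (zb : Φ b = 0) (za1 : Φ1 a = 0) (zb1 : Φ1 b = 0) :
    ∫ x in Icc a b, H x * Φ2 x = ∫ x in Icc a b, H2 x * Φ x := by
  have cH1 : ContinuousOn H1 (Icc a b) := fun x hx => (hH1 x hx).continuousAt.continuousWithinAt
  have cΦ1 : ContinuousOn Φ1 (Icc a b) := fun x hx => (hΦ1 x hx).continuousAt.continuousWithinAt
  have iH1 : IntervalIntegrable H1 volume a b := by
    apply ContinuousOn.intervalIntegrable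
    rwa [uIcc_of_le hab]
  have iH2 : IntervalIntegrable H2 volume a b := by
    apply ContinuousOn.intervalIntegrable
    rwa [uIcc_of_le hab]
  have iΦ1 : IntervalIntegrable Φ1 volume a b := by
    apply ContinuousOn.intervalIntegrable
    rwa [uIcc_of_le hab]
  have iΦ2 : IntervalIntegrable Φ2 volume a b := by
    apply ContinuousOn.intervalIntegrable
    rwa [uIcc_of_le hab]
  have h1 := intervalIntegral.integral_mul_deriv_eq_deriv_mul (u := H) (v := Φ1) (u' := H1)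
    (v' := Φ2) (a := a) (b := b) (by rwa [uIcc_of_le hab]) (by rwa [uIcc_of_le hab]) iH1 iΦ2
  have h2 := intervalIntegral.integral_mul_deriv_eq_deriv_mul (u := H1) (v := Φ) (u' := H2)
    (v' := Φ1) (a := a) (b := b) (by rwa [uIcc_of_le hab]) (by rwa [uIcc_of_le hab]) iH2 iΦ1
  rw [za1, zb1, mul_zero, mul_zero, sub_zero, zero_sub] at h1
  rw [za, zb, mul_zero, mul_zero, sub_zero, zero_sub] at h2
  rw [integral_Icc_eq_integral_Ioc, integral_Icc_eq_integral_Ioc,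
    ← intervalIntegral.integral_of_le hab, ← intervalIntegral.integral_of_le hab, h1, h2, neg_neg]

/-- the cutoff and its derivative vanish outside the open interval -/
lemma cut_zero {θ : ℝ → ℝ} {a b : ℝ} (cθ : ContDiff ℝ 2 θ) (zθ : ∀ x, x ∉ Ioo a b → θ x = 0)
    (_hab : a < b) : θ a = 0 ∧ θ b = 0 ∧ deriv θ a = 0 ∧ deriv θ b = 0 := by
  have hd : Differentiable ℝ θ := cθ.differentiable (by norm_num)
  refine ⟨zθ a (by simp), zθ b (by simp), ?_, ?_⟩
  · have h1 : HasDerivWithinAt θ (deriv θ a) (Iic a) a := (hd a).hasDerivAt.hasDerivWithinAt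
    have h2 : HasDerivWithinAt θ 0 (Iic a) a := by
      refine (hasDerivWithinAt_const a (Iic a) (0 : ℝ)).congr (fun x hx => zθ x ?_) (zθ a (by simp))
      intro h
      exact absurd h.1 (not_lt.2 hx)
    exact (uniqueDiffWithinAt_Iic a).eq_deriv _ h1 h2
  · have h1 : HasDerivWithinAt θ (deriv θ b) (Ici b) b := (hd b).hasDerivAt.hasDerivWithinAt
    have h2 : HasDerivWithinAt θ 0 (Ici b) b := by
      refine (hasDerivWithinAt_const b (Ici b) (0 : ℝ)).congr (fun x hx => zθ x ?_) (zθ b (by simp))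
      intro h
      exact absurd h.2 (not_lt.2 hx)
    exact (uniqueDiffWithinAt_Ici b).eq_deriv _ h1 h2

lemma cut_deriv {θ : ℝ → ℝ} (cθ : ContDiff ℝ 2 θ) (x : ℝ) :
    HasDerivAt (fun x => ((θ x : ℝ) : ℂ)) ((deriv θ x : ℝ) : ℂ) x ∧
    HasDerivAt (fun x => ((deriv θ x : ℝ) : ℂ)) ((deriv (deriv θ) x : ℝ) : ℂ) x := by
  have hd : Differentiable ℝ θ := cθ.differentiable (by norm_num)
  have hd1 : ContDiff ℝ 1 (deriv θ) := by
    have : ContDiff ℝ (1 + 1) θ := by norm_num; exact cθ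
    exact (contDiff_succ_iff_deriv.1 this).2.2
  exact ⟨(hd x).hasDerivAt.ofReal_comp, ((hd1.differentiable (by norm_num)) x).hasDerivAt.ofReal_comp⟩

lemma cut_cont {θ : ℝ → ℝ} (cθ : ContDiff ℝ 2 θ) :
    Continuous θ ∧ Continuous (deriv θ) ∧ Continuous (deriv (deriv θ)) := by
  have hd1 : ContDiff ℝ 1 (deriv θ) := by
    have : ContDiff ℝ (1 + 1) θ := by norm_num; exact cθ
    exact (contDiff_succ_iff_deriv.1 this).2.2
  have hd2 : ContDiff ℝ 0 (deriv (deriv θ)) := by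
    have : ContDiff ℝ (0 + 1) (deriv θ) := by norm_num; exact hd1
    exact (contDiff_succ_iff_deriv.1 this).2.2
  exact ⟨cθ.continuous, hd1.continuous, hd2.continuous⟩

/-- derivative of a holomorphic function on a horizontal line -/
lemma hor {F : ℂ → ℂ} {x u : ℝ} (h : DifferentiableAt ℂ F (x + u * I)) :
    HasDerivAt (fun x : ℝ => F (x + u * I)) (deriv F (x + u * I)) x := by
  have h1 : HasDerivAt (fun s : ℂ => F (s + u * I)) (deriv F (x + u * I)) (x : ℂ) :=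
    h.hasDerivAt.comp_add_const (x : ℂ) (u * I)
  exact h1.comp_ofReal

/-- derivative of a holomorphic function on a vertical line -/
lemma ver {F : ℂ → ℂ} {x u : ℝ} (h : DifferentiableAt ℂ F (x + u * I)) :
    HasDerivAt (fun u : ℝ => F (x + u * I)) (deriv F (x + u * I) * I) u := by
  have h0 : HasDerivAt (fun s : ℂ => (x : ℂ) + s * I) I (u : ℂ) := by
    have := ((hasDerivAt_id (u : ℂ)).mul_const I).const_add (x : ℂ)
    simpa using this
  have h1 : HasDerivAt (fun s : ℂ => F (x + s * I)) (deriv F (x + u * I) * I) (u : ℂ) :=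
    h.hasDerivAt.comp (u : ℂ) h0
  exact h1.comp_ofReal

/-- the real part -/
lemma re_deriv {F : ℝ → ℂ} {F' : ℂ} {x : ℝ} (h : HasDerivAt F F' x) :
    HasDerivAt (fun x : ℝ => (((F x).re : ℝ) : ℂ)) ((F'.re : ℝ) : ℂ) x := by
  have h1 : HasDerivAt (fun x : ℝ => (F x).re) F'.re x := by
    exact (Complex.reCLM.hasFDerivAt (x := F x)).comp_hasDerivAt x h
  exact h1.ofReal_comp

/-- the harmonic part of the smooth Jensen formula -/
theorem seg : T_SEG := by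
  intro G K θ η x₁ x₂ u₁ u₂ hcut hK hG
  have hx := hcut.hx
  have hu := hcut.hu
  obtain ⟨θa, θb, θa1, θb1⟩ := cut_zero hcut.cθ hcut.zθ hx
  obtain ⟨ηa, ηb, ηa1, ηb1⟩ := cut_zero hcut.cη hcut.zη hu
  obtain ⟨cθ0, cθ1, cθ2⟩ := cut_cont hcut.cθ
  obtain ⟨cη0, cη1, cη2⟩ := cut_cont hcut.cη
  have hK1 : Differentiable ℂ (deriv K) := by
    rw [← differentiableOn_univ]
    exact (differentiableOn_univ.2 hK).deriv isOpen_univ
  have hK2 : Differentiable ℂ (deriv (deriv K)) := by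
    rw [← differentiableOn_univ]
    exact (differentiableOn_univ.2 hK1).deriv isOpen_univ
  have hz : ∀ x u : ℝ, ((x : ℂ) + u * I).re = x ∧ ((x : ℂ) + u * I).im = u := fun x u => by simp
  have hG0 : ∀ x ∈ Icc x₁ x₂, ∀ u ∈ Icc u₁ u₂, AnalyticAt ℂ G (x + u * I) := fun x hx u hu =>
    hG _ (by rw [(hz x u).1]; exact hx) (by rw [(hz x u).2]; exact hu)
  have hG1 : ∀ x ∈ Icc x₁ x₂, ∀ u ∈ Icc u₁ u₂, AnalyticAt ℂ (deriv G) (x + u * I) :=
    fun x hx u hu => (hG0 x hx u hu).deriv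
  have hG2 : ∀ x ∈ Icc x₁ x₂, ∀ u ∈ Icc u₁ u₂, AnalyticAt ℂ (deriv (deriv G)) (x + u * I) :=
    fun x hx u hu => (hG1 x hx u hu).deriv
  -- the functions
  obtain ⟨A, hA⟩ : ∃ A : ℝ → ℝ → ℂ, A = fun (x u : ℝ) => (((deriv (deriv θ) x : ℝ) : ℂ) *
      K (x + u * I) + 2 * (((deriv θ x : ℝ) : ℂ) * deriv K (x + u * I)) +
      ((θ x : ℝ) : ℂ) * deriv (deriv K) (x + u * I)) * ((η u : ℝ) : ℂ) := ⟨_, rfl⟩
  obtain ⟨B, hB⟩ : ∃ B : ℝ → ℝ → ℂ, B = fun (x u : ℝ) => (((deriv (deriv η) u : ℝ) : ℂ) *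
      K (x + u * I) + 2 * (((deriv η u : ℝ) : ℂ) * (deriv K (x + u * I) * I)) +
      ((η u : ℝ) : ℂ) * (deriv (deriv K) (x + u * I) * I * I)) * ((θ x : ℝ) : ℂ) := ⟨_, rfl⟩
  obtain ⟨Φ, hΦ⟩ : ∃ Φ : ℝ → ℝ → ℂ, Φ = fun (x u : ℝ) => ((θ x : ℝ) : ℂ) * ((η u : ℝ) : ℂ) *
      K (x + u * I) := ⟨_, rfl⟩
  obtain ⟨H, hH⟩ : ∃ H : ℝ → ℝ → ℂ, H = fun (x u : ℝ) => (((G (x + u * I)).re : ℝ) : ℂ) := ⟨_, rfl⟩
  obtain ⟨H2, hH2⟩ : ∃ H2 : ℝ → ℝ → ℂ, H2 = fun (x u : ℝ) =>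
      (((deriv (deriv G) (x + u * I)).re : ℝ) : ℂ) := ⟨_, rfl⟩
  have hLp : ∀ x u, Lp K θ η x u = A x u + B x u := by
    intro x u
    rw [hA, hB]
    simp only [Pool.Agent.H74.PP.Lp]
    simp only [mul_assoc, I_mul_I]
    push_cast
    ring
  -- continuity
  have ctheta : ∀ {f : ℝ → ℝ}, Continuous f → Continuous fun p : ℝ × ℝ => ((f p.1 : ℝ) : ℂ) :=
    fun hf => Complex.continuous_ofReal.comp (hf.comp continuous_fst)
  have ceta : ∀ {f : ℝ → ℝ}, Continuous f → Continuous fun p : ℝ × ℝ => ((f p.2 : ℝ) : ℂ) :=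
    fun hf => Complex.continuous_ofReal.comp (hf.comp continuous_snd)
  have cz : Continuous fun p : ℝ × ℝ => (p.1 : ℂ) + p.2 * I := by fun_prop
  have cA : Continuous fun p : ℝ × ℝ => A p.1 p.2 := by
    rw [hA]
    exact ((((ctheta cθ2).mul (hK.continuous.comp cz)).add (continuous_const.mul
      ((ctheta cθ1).mul (hK1.continuous.comp cz)))).add
      ((ctheta cθ0).mul (hK2.continuous.comp cz))).mul (ceta cη0)
  have cB : Continuous fun p : ℝ × ℝ => B p.1 p.2 := by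
    rw [hB]
    exact ((((ceta cη2).mul (hK.continuous.comp cz)).add (continuous_const.mul
      ((ceta cη1).mul ((hK1.continuous.comp cz).mul continuous_const)))).add
      ((ceta cη0).mul (((hK2.continuous.comp cz).mul continuous_const).mul
        continuous_const))).mul (ctheta cθ0)
  have cΦ : Continuous fun p : ℝ × ℝ => Φ p.1 p.2 := by
    rw [hΦ]
    exact ((ctheta cθ0).mul (ceta cη0)).mul (hK.continuous.comp cz)
  have cH : ContinuousOn (fun p : ℝ × ℝ => H p.1 p.2) (Icc x₁ x₂ ×ˢ Icc u₁ u₂) := by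
    rw [hH]
    intro p hp
    have h1 : ContinuousAt (fun p : ℝ × ℝ => G (p.1 + p.2 * I)) p :=
      ContinuousAt.comp (f := fun p : ℝ × ℝ => (p.1 : ℂ) + p.2 * I)
        (hG0 p.1 hp.1 p.2 hp.2).continuousAt cz.continuousAt
    exact (Complex.continuous_ofReal.continuousAt.comp
      (Complex.continuous_re.continuousAt.comp h1)).continuousWithinAt
  have cH2 : ContinuousOn (fun p : ℝ × ℝ => H2 p.1 p.2) (Icc x₁ x₂ ×ˢ Icc u₁ u₂) := by
    rw [hH2]
    intro p hp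
    have h1 : ContinuousAt (fun p : ℝ × ℝ => deriv (deriv G) (p.1 + p.2 * I)) p :=
      ContinuousAt.comp (f := fun p : ℝ × ℝ => (p.1 : ℂ) + p.2 * I)
        (hG2 p.1 hp.1 p.2 hp.2).continuousAt cz.continuousAt
    exact (Complex.continuous_ofReal.continuousAt.comp
      (Complex.continuous_re.continuousAt.comp h1)).continuousWithinAt
  have hcpt : IsCompact (Icc x₁ x₂ ×ˢ Icc u₁ u₂) := isCompact_Icc.prod isCompact_Icc
  have iHA : IntegrableOn (fun p : ℝ × ℝ => H p.1 p.2 * A p.1 p.2) (Icc x₁ x₂ ×ˢ Icc u₁ u₂) :=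
    (cH.mul cA.continuousOn).integrableOn_compact hcpt
  have iHB : IntegrableOn (fun p : ℝ × ℝ => H p.1 p.2 * B p.1 p.2) (Icc x₁ x₂ ×ˢ Icc u₁ u₂) :=
    (cH.mul cB.continuousOn).integrableOn_compact hcpt
  have iHΦ : IntegrableOn (fun p : ℝ × ℝ => H2 p.1 p.2 * Φ p.1 p.2) (Icc x₁ x₂ ×ˢ Icc u₁ u₂) :=
    (cH2.mul cΦ.continuousOn).integrableOn_compact hcpt
  have eH2u : ∀ x ∈ Icc x₁ x₂, ContinuousOn (fun u => H2 x u) (Icc u₁ u₂) := fun x hx =>
    cH2.comp (f := fun u => (x, u)) (by fun_prop) fun u hu => ⟨hx, hu⟩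
  have eH2x : ∀ u ∈ Icc u₁ u₂, ContinuousOn (fun x => H2 x u) (Icc x₁ x₂) := fun u hu =>
    cH2.comp (f := fun x => (x, u)) (by fun_prop) fun x hx => ⟨hx, hu⟩
  -- integration by parts
  have hparx : ∀ u ∈ Icc u₁ u₂, ∫ x in Icc x₁ x₂, H x u * A x u = ∫ x in Icc x₁ x₂, H2 x u * Φ x u := by
    intro u hu
    refine ibp2 hx.le (H := fun x => H x u) (H1 := fun x => (((deriv G (x + u * I)).re : ℝ) : ℂ))
      (H2 := fun x => H2 x u) (Φ := fun x => Φ x u) (Φ1 := fun x => (((deriv θ x : ℝ) : ℂ) *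
        K (x + u * I) + ((θ x : ℝ) : ℂ) * deriv K (x + u * I)) * ((η u : ℝ) : ℂ))
      (Φ2 := fun x => A x u) ?_ ?_ ?_ ?_ (eH2x u hu)
      ((cA.comp (Continuous.prodMk_left u)).continuousOn) ?_ ?_ ?_ ?_
    · intro x hx
      rw [hH]
      exact re_deriv (hor (hG0 x hx u hu).differentiableAt)
    · intro x hx
      rw [hH2]
      exact re_deriv (hor (hG1 x hx u hu).differentiableAt)
    · intro x _
      rw [hΦ]
      have h1 := (((cut_deriv hcut.cθ x).1.mul_const ((η u : ℝ) : ℂ)).mul (hor (hK (x + u * I))))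
      refine h1.congr_deriv ?_
      ring
    · intro x _
      rw [hA]
      have h1 := ((((cut_deriv hcut.cθ x).2.mul (hor (hK (x + u * I)))).add
        ((cut_deriv hcut.cθ x).1.mul (hor (hK1 (x + u * I))))).mul_const ((η u : ℝ) : ℂ))
      refine h1.congr_deriv ?_
      ring
    · simp [hΦ, θa]
    · simp [hΦ, θb]
    · simp [θa, θa1]
    · simp [θb, θb1]
  have hparu : ∀ x ∈ Icc x₁ x₂, ∫ u in Icc u₁ u₂, H x u * B x u = ∫ u in Icc u₁ u₂, -H2 x u * Φ x u := by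
    intro x hx
    refine ibp2 hu.le (H := fun u => H x u)
      (H1 := fun u => (((deriv G (x + u * I) * I).re : ℝ) : ℂ))
      (H2 := fun u => -H2 x u) (Φ := fun u => Φ x u) (Φ1 := fun u => (((deriv η u : ℝ) : ℂ) *
        K (x + u * I) + ((η u : ℝ) : ℂ) * (deriv K (x + u * I) * I)) * ((θ x : ℝ) : ℂ))
      (Φ2 := fun u => B x u) ?_ ?_ ?_ ?_ (eH2u x hx).neg
      ((cB.comp (Continuous.prodMk_right x)).continuousOn) ?_ ?_ ?_ ?_
    · intro u hu
      rw [hH]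
      exact re_deriv (ver (hG0 x hx u hu).differentiableAt)
    · intro u hu
      rw [hH2]
      have h1 := re_deriv ((ver (hG1 x hx u hu).differentiableAt).mul_const I)
      refine h1.congr_deriv ?_
      rw [mul_assoc, I_mul_I]
      simp
    · intro u _
      rw [hΦ]
      have h1 := (((cut_deriv hcut.cη u).1.const_mul ((θ x : ℝ) : ℂ)).mul (ver (hK (x + u * I))))
      refine h1.congr_deriv ?_
      ring
    · intro u _
      rw [hB]
      have h1 := ((((cut_deriv hcut.cη u).2.mul (ver (hK (x + u * I)))).add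
        ((cut_deriv hcut.cη u).1.mul ((ver (hK1 (x + u * I))).mul_const I))).mul_const
          ((θ x : ℝ) : ℂ))
      refine h1.congr_deriv ?_
      ring
    · simp [hΦ, ηa]
    · simp [hΦ, ηb]
    · simp [ηa, ηa1]
    · simp [ηb, ηb1]
  -- Fubini
  have hr : (volume : Measure (ℝ × ℝ)).restrict (Icc x₁ x₂ ×ˢ Icc u₁ u₂) =
      (volume.restrict (Icc x₁ x₂)).prod (volume.restrict (Icc u₁ u₂)) := by
    rw [Measure.volume_eq_prod, Measure.prod_restrict]
  have h1 : ∫ p in Icc x₁ x₂ ×ˢ Icc u₁ u₂, H p.1 p.2 * A p.1 p.2 =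
      ∫ p in Icc x₁ x₂ ×ˢ Icc u₁ u₂, H2 p.1 p.2 * Φ p.1 p.2 := by
    rw [IntegrableOn, hr] at iHA iHΦ
    rw [hr, integral_prod_symm _ iHA, integral_prod_symm _ iHΦ]
    exact setIntegral_congr_fun measurableSet_Icc fun u hu => hparx u hu
  have h2 : ∫ p in Icc x₁ x₂ ×ˢ Icc u₁ u₂, H p.1 p.2 * B p.1 p.2 =
      -∫ p in Icc x₁ x₂ ×ˢ Icc u₁ u₂, H2 p.1 p.2 * Φ p.1 p.2 := by
    rw [IntegrableOn, hr] at iHB iHΦ
    rw [hr, integral_prod _ iHB, integral_prod _ iHΦ, ← integral_neg]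
    refine setIntegral_congr_fun measurableSet_Icc fun x hx => ?_
    change ∫ u in Icc u₁ u₂, H x u * B x u = -∫ u in Icc u₁ u₂, H2 x u * Φ x u
    rw [hparu x hx, ← integral_neg]
    congr 1
    funext u
    ring
  have h3 : ∫ p in Icc x₁ x₂ ×ˢ Icc u₁ u₂, (((G (p.1 + p.2 * I)).re : ℝ) : ℂ) * Lp K θ η p.1 p.2 =
      ∫ p in Icc x₁ x₂ ×ˢ Icc u₁ u₂, (H p.1 p.2 * A p.1 p.2 + H p.1 p.2 * B p.1 p.2) := by
    congr 1
    funext p
    rw [hLp, hH]
    ring
  rw [h3, integral_add iHA iHB, h1, h2, add_neg_cancel]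

end Pool.Agent.H87.PP
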